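import Pool.Agent.OrderedMin.Main

set_option autoImplicit false

namespace Pool.Agent.Results.MP_c65f17_an.MinimalNotLeast

/-- There are a real Banach space `X`, a closed cone `P` in `X` which is normal (with constant `1`)
and has nonempty interior, and an increasing sequence in `X` which has a minimal upper bound but no
smallest upper bound, for the order `x ≤ y ↔ y - x ∈ P`. -/
theorem result :
    ∃ (X : Type) (_ : NormedAddCommGroup X) (_ : NormedSpace ℝ X) (_ : CompleteSpace X)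
      (P : Set X),
      IsClosed P ∧ (∀ x ∈ P, ∀ y ∈ P, x + y ∈ P) ∧
      (∀ c : ℝ, 0 ≤ c → ∀ x ∈ P, c • x ∈ P) ∧ (∀ x ∈ P, -x ∈ P → x = 0) ∧
      (∀ x y : X, x ∈ P → y - x ∈ P → ‖x‖ ≤ ‖y‖) ∧ (interior P).Nonempty ∧
      ∃ f : ℕ → X, (∀ j k, j ≤ k → f k - f j ∈ P) ∧
        (∃ u : X, (∀ j, u - f j ∈ P) ∧
          ∀ v : X, (∀ j, v - f j ∈ P) → u - v ∈ P → v = u) ∧
        ¬ ∃ s : X, (∀ j, s - f j ∈ P) ∧ ∀ v : X, (∀ j, v - f j ∈ P) → v - s ∈ P :=
  Pool.Agent.OrderedMin.main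

end Pool.Agent.Results.MP_c65f17_an.MinimalNotLeast
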